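import Pool.Agent.helper51.RMX.Spec

/-! # Project rmx (MP_24e2e7_nt), row MDX -/

set_option autoImplicit false

namespace Pool.Agent.RMX

open Pool.Agent.RB NumberField IsDedekindDomain Module
open scoped nonZeroDivisors Real Classical IsMulCommutative

section

variable {G : Type} [CommGroup G] [Finite G]

/-- the evaluation at all characters in `X` -/
private noncomputable def MDX_L0 (X : Finset (G →* ℂˣ)) : ECX X →ₗ[ℂ] (↥X → ℂ) where
  toFun y := fun ψ => evC ψ.1 (y : MonoidAlgebra ℂ G)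
  map_add' x y := by
    funext ψ
    show evC ψ.1 ((x : MonoidAlgebra ℂ G) + (y : MonoidAlgebra ℂ G)) = _
    rw [map_add]
    rfl
  map_smul' a x := by
    funext ψ
    show evC ψ.1 (a • (x : MonoidAlgebra ℂ G)) = _
    rw [MDT_smul]
    rfl

private theorem MDX_L0_bij (X : Finset (G →* ℂˣ)) :
    Function.Bijective (MDX_L0 X) := by
  have : Fintype G := Fintype.ofFinite G
  constructor
  · rw [← LinearMap.ker_eq_bot, LinearMap.ker_eq_bot']
    intro y hy
    apply Subtype.ext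
    show (y : MonoidAlgebra ℂ G) = 0
    apply MDT_inj
    intro ψ
    by_cases hψ : ψ ∈ X
    · exact congrFun hy ⟨ψ, hψ⟩
    · exact y.2 ψ hψ
  · intro z
    have hcard : (Fintype.card G : ℂ) ≠ 0 := by exact_mod_cast Fintype.card_ne_zero
    have hmem : ∀ φ : ↥X, MDT_e φ.1 ∈ ECX X := by
      intro φ ψ hψ
      rw [MDT_e_ev, if_neg]
      rintro rfl
      exact hψ φ.2
    refine ⟨∑ φ : ↥X, (z φ / (Fintype.card G : ℂ)) • (⟨MDT_e φ.1, hmem φ⟩ : ECX X), ?_⟩
    funext ψ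
    have h1 : MDX_L0 X (∑ φ : ↥X, (z φ / (Fintype.card G : ℂ)) •
        (⟨MDT_e φ.1, hmem φ⟩ : ECX X)) ψ =
        ∑ φ : ↥X, (z φ / (Fintype.card G : ℂ)) * evC ψ.1 (MDT_e φ.1) := by
      rw [map_sum, Finset.sum_apply]
      apply Finset.sum_congr rfl
      intro φ _
      rw [map_smul]
      rfl
    rw [h1, Finset.sum_eq_single ψ]
    · rw [MDT_e_ev, if_pos rfl, div_mul_cancel₀ _ hcard]
    · intro φ _ hφ
      rw [MDT_e_ev, if_neg (fun h => hφ (Subtype.ext h.symm)), mul_zero]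
    · intro h
      exact absurd (Finset.mem_univ ψ) h

end

theorem MDX : MDX_stmt := by
  intro G _ _ X r A Φ hΦ
  set L : ECX X ≃ₗ[ℂ] (↥X → ℂ) :=
    LinearEquiv.ofBijective (MDX_L0 X) (MDX_L0_bij X) with hL
  have hLap : ∀ (y : ECX X) (ψ : ↥X), L y ψ = evC ψ.1 (y : MonoidAlgebra ℂ G) := by
    intro y ψ
    rfl
  set E : (Fin r → ECX X) ≃ₗ[ℂ] (Fin r × ↥X → ℂ) :=
    (LinearEquiv.piCongrRight (fun _ : Fin r => L)) ≪≫ₗ
      (LinearEquiv.curry ℂ ℂ (Fin r) (↥X)).symm with hE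
  have hEap : ∀ (y : Fin r → ECX X) (x : Fin r × ↥X),
      E y x = evC x.2.1 ((y x.1 : ECX X) : MonoidAlgebra ℂ G) := by
    intro y x
    rfl
  set Mx : Matrix (Fin r × ↥X) (Fin r × ↥X) ℂ :=
    Matrix.blockDiagonal (fun ψ : ↥X =>
      (Matrix.of fun i j => evC ψ.1 (A i j) : Matrix (Fin r) (Fin r) ℂ)) with hMx
  have h1 : ∀ y : Fin r → ECX X, E (Φ y) = Matrix.toLin' Mx (E y) := by
    intro y
    funext x
    obtain ⟨i, ψ⟩ := x
    rw [hEap, Matrix.toLin'_apply]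
    simp only
    rw [hΦ y i, map_sum]
    show _ = ∑ x : Fin r × ↥X, Mx (i, ψ) x * E y x
    rw [Fintype.sum_prod_type]
    apply Finset.sum_congr rfl
    intro j _
    rw [Finset.sum_eq_single ψ]
    · rw [map_mul, hEap, hMx, Matrix.blockDiagonal_apply_eq]
      rfl
    · intro φ _ hφ
      rw [hMx, Matrix.blockDiagonal_apply_ne _ _ _ (Ne.symm hφ), zero_mul]
    · intro h
      exact absurd (Finset.mem_univ ψ) h
  have h2 : (E : (Fin r → ECX X) →ₗ[ℂ] _) ∘ₗ Φ ∘ₗ (E.symm : _ →ₗ[ℂ] (Fin r → ECX X)) =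
      Matrix.toLin' Mx := by
    apply LinearMap.ext
    intro z
    rw [LinearMap.comp_apply, LinearMap.comp_apply]
    have h3 := h1 (E.symm z)
    rw [LinearEquiv.apply_symm_apply] at h3
    exact h3
  rw [← LinearMap.det_conj Φ E, h2, LinearMap.det_toLin', hMx, Matrix.det_blockDiagonal]
  exact Finset.prod_coe_sort X (fun ψ => Matrix.det (fun i j => evC ψ (A i j)))

end Pool.Agent.RMX
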